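import Pool.Agent.N375.AV.D
import Pool.Agent.K6.H40.GaussMembers

/-!
# The abc conjecture over the Gaussian integers near the values of compositions of additive functions

Let `F = f_1 ∘ ⋯ ∘ f_k` be a composition of functions dominated by the largest prime factor: for example additive functions
`f` with `f (q ^ j) ≤ C q ^ j` at the prime powers and different values at different large primes (the sum of the prime
factors, with or without multiplicity), the largest prime factor itself, and Kempner's function. Let `G` have steps bounded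
below by a positive constant and growth at most `v ^ d`, for example `α v ^ d` with `α > 0`, `d ≥ 1`. Let `λ > 0` and
`s = min (4 λ / 7) (6 / 11) + max (λ - 1) 0`. If `d A s + κ < 1`, then for all `m ≤ N` but
`K N exp (- c₀ (log N) ^ (1 / (k + 1)))` ALL coprime triples `a + b = c` of nonzero Gaussian integers one of whose members has
a norm `n` within `F(m) ^ κ` of `G (F m)`, and with `H ^ 2 ≤ n ^ A`, `H = max (|a|, |b|, |c|)`, have `rad (abc) > B H ^ λ`.
For `λ = 1 - ε` this is the inequality of the question, for `A = 1` (which includes `n = H ^ 2`) and `d < 11 / 6`.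

The number `F(m)` is in general much smaller than `m` and the values of `F` are taken with very large multiplicities, and so
this does not follow from the size of the exceptional set alone.

Proof. The number of the norms of the members of the exceptional triples up to `X` is at most `X ^ (A s + ε)` by the starting
theorem `ExceptionalSetTwelveElevenths` of this problem. The preimage of a set with at most `K X exp (- c (log X) ^ β)`
elements up to `X` under a function dominated by the largest prime factor has at most `K' X exp (- c' (log X) ^ (β / (1 + β)))`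
elements (tool of helper375, `N375/AV`).
-/

set_option autoImplicit false

namespace Pool.Agent.Results.MP_dc323a_nt.AdditiveValues

open Pool.Agent.N733.TG (Expanding expanding_pow)
open Pool.Agent.N375.AV (PD comp good_nat pd_additive pd_sopfr pd_largest pd_kempner)
open Pool.Agent.K6.H40.GaussMembers (Good count_nat expo_nonneg)
open Pool.Agent.Results.MP_dc323a_nt.WindowsWithoutExceptions (expo)

/-- **Gaussian abc triples with norms near the values of compositions of additive functions.** Let `F = f_1 ∘ ⋯ ∘ f_k` with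
`f_i` dominated by the largest prime factor. Let `G` have steps `≥ a > 0` and growth at most `v ^ d`. Let `A > 0`, `λ > 0`,
`κ ≥ 0` and `d A expo λ + κ < 1`, `expo λ = min (4 λ / 7) (6 / 11) + max (λ - 1) 0`. For each `B` there are `c₀ > 0` and `K`
such that for every `N ≥ 1`, for all `m ≤ N` but `K N exp (- c₀ (log N) ^ (1 / (k + 1)))`, EVERY `n ≥ 1` with
`|n - G (F m)| ≤ F(m) ^ κ` is `Good A B λ`: every triple `a + b = c` of coprime nonzero Gaussian integers with a member of
norm `n` and `H ^ 2 ≤ n ^ A`, `H = max (|a|, |b|, |c|)`, has `rad (abc) > B H ^ λ`. The additive functions with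
`f (q ^ j) ≤ C q ^ j` which are injective at the large primes, the sum of the prime factors with multiplicity, the largest
prime factor and Kempner's function are examples of such functions `f_i`, and `α v ^ d` with `α > 0`, `d ≥ 1` is an example
of `G`. -/
theorem result :
    (∀ fs : List (ℕ → ℕ), (∀ f ∈ fs, PD f) → ∀ (G : ℕ → ℝ) (d : ℝ), Expanding G d → ∀ A lam κ : ℝ, 0 < A → 0 < lam →
      0 ≤ κ → d * (A * expo lam) + κ < 1 → ∀ B : ℝ, ∃ c₀ K : ℝ, 0 < c₀ ∧ ∀ N : ℕ, 1 ≤ N →
      ({m : ℕ | 1 ≤ m ∧ m ≤ N ∧ ¬ ∀ n : ℕ, 1 ≤ n → |(n : ℝ) - G (comp fs m)| ≤ (comp fs m : ℝ) ^ κ →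
        Good A B lam n}.ncard : ℝ) ≤ K * N * Real.exp (-(c₀ * Real.log N ^ ((1 : ℝ) / (fs.length + 1))))) ∧
    ((∀ f : ℕ → ℕ, (∀ a b : ℕ, Nat.Coprime a b → f (a * b) = f a + f b) →
        (∃ C : ℕ, ∀ q j : ℕ, q.Prime → 1 ≤ j → f (q ^ j) ≤ C * q ^ j) →
        (∃ P : ℕ, ∀ p q : ℕ, p.Prime → q.Prime → P ≤ p → P ≤ q → f p = f q → p = q) → PD f) ∧
      PD (fun n => n.primeFactorsList.sum) ∧ PD (fun n => n.primeFactors.sup id) ∧
      PD (fun n => sInf {k : ℕ | n ∣ k.factorial})) ∧
    ∀ α d : ℝ, 0 < α → 1 ≤ d → Expanding (fun v => α * (v : ℝ) ^ d) d := by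
  refine ⟨fun fs hfs G d hG A lam κ hA hlam hκ h1 B => ?_,
    ⟨fun _ h1 h2 h3 => pd_additive h1 h2 h3, pd_sopfr, pd_largest, pd_kempner⟩, fun α d hα hd => expanding_pow hα hd⟩
  obtain ⟨c₀, K, hc₀, hN₀⟩ := good_nat (fun _ => True) (Good A B lam) fs hfs hG (s := A * expo lam) (κ := κ)
    (mul_nonneg hA.le (expo_nonneg hlam)) hκ h1 (fun ε hε => count_nat hA hlam ε hε)
  refine ⟨c₀, K, hc₀, fun N hN => le_trans (le_of_eq ?_) (hN₀ N hN)⟩
  congr 2
  ext m
  simp only [Set.mem_ofPred_eq]
  have : (∀ n : ℕ, 1 ≤ n → |(n : ℝ) - G (comp fs m)| ≤ (comp fs m : ℝ) ^ κ → Good A B lam n) ↔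
      ∀ n : ℕ, 1 ≤ n → True → |(n : ℝ) - G (comp fs m)| ≤ (comp fs m : ℝ) ^ κ → Good A B lam n :=
    ⟨fun h n hn _ => h n hn, fun h n hn => h n hn trivial⟩
  rw [this]

end Pool.Agent.Results.MP_dc323a_nt.AdditiveValues
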