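import Pool.Agent.K6.H40.Rand
import Pool.Agent.K6.H40.GaussMembers

/-!
# The abc conjecture over the Gaussian integers in random sets

Let `λ > 0`, `s = min (4 λ / 7) (6 / 11) + max (λ - 1) 0`, and let `A` be a random set of Gaussian integers.

(1) Let two different Gaussian integers `x`, `y` belong to `A` with probability at most `D (|x| |y|) ^ (-2 γ)`, for instance
because they are chosen independently with probabilities `O (|x| ^ (-2 γ))`. If `s < 2 γ` then almost surely, for every
`B`, all but finitely many of the coprime triples `a + b = c` of nonzero Gaussian integers two different members of which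
have absolute value at least `H / 2`, `H = max (|a|, |b|, |c|)`, and belong to `A` satisfy `rad (abc) > B H ^ λ`; in
particular this holds for the triples with all members in `A`. If `s + η < 2 γ` the probability that one of them with
`H ^ 2 ≥ y` does not is at most `K y ^ (-η)`.

(2) Let `x` belong to `A` with probability at most `D |x| ^ (-2 γ)`, without any condition on pairs. The same holds if
`s < γ`, for the triples such that a member of absolute value at least `H / 2` belongs to `A`.

For `λ = 1 - ε` this is the inequality of the question: `s ≤ 6 / 11`, and so the random sets in (1) may have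
`X ^ (16 / 11 - ε)` elements of absolute value at most `X`, and those in (2) may have `X ^ (10 / 11 - ε)` elements.

Proof. By the starting theorem `ExceptionalSetTwelveElevenths` of this problem there are `O (X ^ (s + ε))` exceptional triples
with `H ^ 2 ≤ X`. Two of the three members have absolute value at least `H / 2`. Then the lemma of Borel and Cantelli applies
(`K6/H40/Rand`, after `Pool.Agent.R909.RandSets`).
-/

set_option autoImplicit false

namespace Pool.Agent.Results.MP_dc323a_nt.RandomSets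

open MeasureTheory
open Pool.Agent.K6.H40.GaussMembers (nsq mem_All of_mem_All expo_nonneg summable_bad)
open Pool.Agent.Results.MP_dc323a_nt.WindowsWithoutExceptions (expo height IsPrimeSystem All)

/-- coprime triples `a + b = c` of nonzero Gaussian integers -/
def Admissible (t : GaussianInt × GaussianInt × GaussianInt) : Prop :=
  t.1 ≠ 0 ∧ t.2.1 ≠ 0 ∧ t.2.2 ≠ 0 ∧ t.1 + t.2.1 = t.2.2 ∧ IsCoprime t.1 t.2.1

/-- `rad (abc) > B H ^ lam` -/
def Good (B lam : ℝ) (t : GaussianInt × GaussianInt × GaussianInt) : Prop :=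
  ∀ S : Finset GaussianInt, IsPrimeSystem S (t.1 * t.2.1 * t.2.2) →
    B * height t ^ lam < ∏ Q ∈ S, ‖GaussianInt.toComplex Q‖

/-- `x` is one of the members of the triple -/
def IsMember (x : GaussianInt) (t : GaussianInt × GaussianInt × GaussianInt) : Prop := x = t.1 ∨ x = t.2.1 ∨ x = t.2.2

/-- two different members of the triple of absolute value at least `H / 2` belong to `A` -/
def Two (A : Set GaussianInt) (t : GaussianInt × GaussianInt × GaussianInt) : Prop :=
  ∃ x y : GaussianInt, x ≠ y ∧ IsMember x t ∧ IsMember y t ∧ height t / 2 ≤ ‖GaussianInt.toComplex x‖ ∧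
    height t / 2 ≤ ‖GaussianInt.toComplex y‖ ∧ x ∈ A ∧ y ∈ A

/-- a member of the triple of absolute value at least `H / 2` belongs to `A` -/
def One (A : Set GaussianInt) (t : GaussianInt × GaussianInt × GaussianInt) : Prop :=
  ∃ x : GaussianInt, IsMember x t ∧ height t / 2 ≤ ‖GaussianInt.toComplex x‖ ∧ x ∈ A

/-- each Gaussian integer `x ≠ 0` belongs to the random set `A` with probability at most `D * |x| ^ (-2 γ)` -/
def Sparse {Ω : Type} [MeasurableSpace Ω] (P : Measure Ω) (A : Ω → Set GaussianInt) (γ D : ℝ) : Prop :=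
  ∀ x : GaussianInt, x ≠ 0 → P {ω | x ∈ A ω} ≤ ENNReal.ofReal (D * (‖GaussianInt.toComplex x‖ ^ 2) ^ (-γ))

/-- two different nonzero Gaussian integers `x`, `y` belong to the random set `A` with probability at most
`D * (|x| * |y|) ^ (-2 γ)` -/
def PairSparse {Ω : Type} [MeasurableSpace Ω] (P : Measure Ω) (A : Ω → Set GaussianInt) (γ D : ℝ) : Prop :=
  ∀ x y : GaussianInt, x ≠ 0 → y ≠ 0 → x ≠ y → P {ω | x ∈ A ω ∧ y ∈ A ω} ≤
    ENNReal.ofReal (D * (‖GaussianInt.toComplex x‖ ^ 2 * ‖GaussianInt.toComplex y‖ ^ 2) ^ (-γ))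

lemma not_good {B lam : ℝ} {t : GaussianInt × GaussianInt × GaussianInt} (h : Admissible t ∧ ¬ Good B lam t) :
    t ∈ All B lam := by
  obtain ⟨⟨h1, h2, h3, h4, h5⟩, h6⟩ := h
  unfold Good at h6
  push Not at h6
  obtain ⟨S, hS, h7⟩ := h6
  exact mem_All h1 h2 h3 h4 h5 hS h7

lemma one_le_height {t : GaussianInt × GaussianInt × GaussianInt} (h : Admissible t) : 1 ≤ height t ^ 2 := by
  obtain ⟨a, b, c⟩ := t
  obtain ⟨ha, -⟩ := h
  have ha : a ≠ 0 := ha
  have h1 : (1 : ℝ) ≤ ‖GaussianInt.toComplex a‖ ^ 2 := by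
    have h2 : ((a.norm.natAbs : ℕ) : ℝ) = ‖GaussianInt.toComplex a‖ ^ 2 := by
      rw [← Complex.normSq_eq_norm_sq, ← GaussianInt.intCast_real_norm]
      have h3 : (0 : ℤ) ≤ a.norm := GaussianInt.norm_nonneg a
      rw [Nat.cast_natAbs, abs_of_nonneg h3]
    rw [← h2]
    have h4 : a.norm.natAbs ≠ 0 := by
      intro h5
      rw [Int.natAbs_eq_zero, GaussianInt.norm_eq_zero] at h5
      exact ha h5
    exact_mod_cast Nat.one_le_iff_ne_zero.2 h4
  exact h1.trans (pow_le_pow_left₀ (norm_nonneg _) (le_max_left _ _) 2)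

lemma pos_of_sq_pos {x : GaussianInt} (h : 0 < nsq x) : x ≠ 0 := by
  rintro rfl
  unfold nsq at h
  simp at h

/-- triples with all members in `A` -/
lemma two_of_all {A : Set GaussianInt} {t : GaussianInt × GaussianInt × GaussianInt} (h : Admissible t)
    (h1 : t.1 ∈ A) (h2 : t.2.1 ∈ A) (h3 : t.2.2 ∈ A) : Two A t := by
  obtain ⟨a, b, c⟩ := t
  obtain ⟨ha, hb, hc, habc, hcop⟩ := h
  simp only at ha hb hc habc hcop h1 h2 h3
  have hac : a ≠ c := by
    rintro rfl
    exact hb (by simpa using habc)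
  have hbc : b ≠ c := by
    rintro rfl
    exact ha (by simpa using habc)
  have t1 : ‖GaussianInt.toComplex c‖ ≤ ‖GaussianInt.toComplex a‖ + ‖GaussianInt.toComplex b‖ := by
    rw [← habc, map_add]
    exact norm_add_le _ _
  have t2 : ‖GaussianInt.toComplex a‖ ≤ ‖GaussianInt.toComplex c‖ + ‖GaussianInt.toComplex b‖ := by
    have : a = c - b := by rw [← habc]; ring
    rw [this, map_sub]
    exact norm_sub_le _ _
  have t3 : ‖GaussianInt.toComplex b‖ ≤ ‖GaussianInt.toComplex c‖ + ‖GaussianInt.toComplex a‖ := by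
    have : b = c - a := by rw [← habc]; ring
    rw [this, map_sub]
    exact norm_sub_le _ _
  have hH : height (a, b, c) = max ‖GaussianInt.toComplex a‖ (max ‖GaussianInt.toComplex b‖ ‖GaussianInt.toComplex c‖) :=
    rfl
  have p1 := norm_nonneg (GaussianInt.toComplex a)
  have p2 := norm_nonneg (GaussianInt.toComplex b)
  have p3 := norm_nonneg (GaussianInt.toComplex c)
  have hmax : height (a, b, c) = ‖GaussianInt.toComplex a‖ ∨ height (a, b, c) = ‖GaussianInt.toComplex b‖ ∨
      height (a, b, c) = ‖GaussianInt.toComplex c‖ := by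
    rw [hH]
    rcases max_choice ‖GaussianInt.toComplex a‖ (max ‖GaussianInt.toComplex b‖ ‖GaussianInt.toComplex c‖) with h | h
    · exact Or.inl h
    · rcases max_choice ‖GaussianInt.toComplex b‖ ‖GaussianInt.toComplex c‖ with h' | h'
      · exact Or.inr (Or.inl (h.trans h'))
      · exact Or.inr (Or.inr (h.trans h'))
  by_cases hc2 : height (a, b, c) / 2 ≤ ‖GaussianInt.toComplex c‖
  · by_cases ha2 : height (a, b, c) / 2 ≤ ‖GaussianInt.toComplex a‖
    · exact ⟨a, c, hac, Or.inl rfl, Or.inr (Or.inr rfl), ha2, hc2, h1, h3⟩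
    · refine ⟨b, c, hbc, Or.inr (Or.inl rfl), Or.inr (Or.inr rfl), ?_, hc2, h2, h3⟩
      push Not at ha2
      rcases hmax with h | h | h <;> linarith
  · push Not at hc2
    have ha2 : height (a, b, c) / 2 ≤ ‖GaussianInt.toComplex a‖ := by
      rcases hmax with h | h | h <;> linarith
    have hb2 : height (a, b, c) / 2 ≤ ‖GaussianInt.toComplex b‖ := by
      rcases hmax with h | h | h <;> linarith
    refine ⟨a, b, ?_, Or.inl rfl, Or.inr (Or.inl rfl), ha2, hb2, h1, h2⟩
    rintro rfl
    have : ‖GaussianInt.toComplex c‖ = 2 * ‖GaussianInt.toComplex a‖ := by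
      rw [← habc, map_add, ← two_mul, norm_mul]
      simp
    linarith

/-- the members of a triple, as a family -/
def mem (i : Fin 3) (t : GaussianInt × GaussianInt × GaussianInt) : GaussianInt := ![t.1, t.2.1, t.2.2] i

lemma isMember_iff {x : GaussianInt} {t : GaussianInt × GaussianInt × GaussianInt} :
    IsMember x t ↔ ∃ i, mem i t = x := by
  unfold IsMember mem
  constructor
  · rintro (h | h | h)
    · exact ⟨0, h.symm⟩
    · exact ⟨1, h.symm⟩
    · exact ⟨2, h.symm⟩
  · rintro ⟨i, hi⟩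
    fin_cases i
    · exact Or.inl hi.symm
    · exact Or.inr (Or.inl hi.symm)
    · exact Or.inr (Or.inr hi.symm)

lemma sq_le {t : GaussianInt × GaussianInt × GaussianInt} {x : GaussianInt}
    (h : height t / 2 ≤ ‖GaussianInt.toComplex x‖) : height t ^ 2 ≤ 4 * nsq x := by
  have h0 : 0 ≤ height t := (norm_nonneg _).trans (le_max_left _ _)
  unfold nsq
  nlinarith

/-- **Theorem.** Let `λ > 0`, `expo λ = min (4 λ / 7) (6 / 11) + max (λ - 1) 0`, and let `A` be a random set of Gaussian
integers. (1) If `A` is `PairSparse` with the exponent `γ` and `expo λ < 2 γ`, then almost surely, for every `B`, all but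
finitely many coprime triples `a + b = c` of nonzero Gaussian integers, two different members of which have absolute value at
least `H / 2` and belong to `A`, satisfy `rad (abc) > B H ^ λ`; the probability that one of them with `H ^ 2 ≥ y` does not is
at most `K y ^ (-η)` if `expo λ + η < 2 γ`. (2) If `A` is `Sparse` with the exponent `γ`, the same holds with `γ` instead of
`2 γ` for the triples with a member of absolute value at least `H / 2` in `A`. (3) The triples with all members in `A` have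
the property in (1). -/
theorem result (lam : ℝ) (hlam : 0 < lam) (Ω : Type) [MeasurableSpace Ω] (P : Measure Ω) (A : Ω → Set GaussianInt)
    (γ D : ℝ) :
    (PairSparse P A γ D →
      (expo lam < 2 * γ → ∀ᵐ ω ∂P, ∀ B : ℝ, {t | Admissible t ∧ Two (A ω) t ∧ ¬ Good B lam t}.Finite) ∧
      ∀ B η : ℝ, 0 ≤ η → expo lam + η < 2 * γ → ∃ K : ℝ, ∀ y : ℝ, 1 ≤ y →
        P {ω | ∃ t, Admissible t ∧ y ≤ height t ^ 2 ∧ Two (A ω) t ∧ ¬ Good B lam t} ≤ ENNReal.ofReal (K * y ^ (-η))) ∧
    (Sparse P A γ D →
      (expo lam < γ → ∀ᵐ ω ∂P, ∀ B : ℝ, {t | Admissible t ∧ One (A ω) t ∧ ¬ Good B lam t}.Finite) ∧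
      ∀ B η : ℝ, 0 ≤ η → expo lam + η < γ → ∃ K : ℝ, ∀ y : ℝ, 1 ≤ y →
        P {ω | ∃ t, Admissible t ∧ y ≤ height t ^ 2 ∧ One (A ω) t ∧ ¬ Good B lam t} ≤ ENNReal.ofReal (K * y ^ (-η))) ∧
    (∀ (A' : Set GaussianInt) (t : GaussianInt × GaussianInt × GaussianInt), Admissible t → t.1 ∈ A' → t.2.1 ∈ A' →
      t.2.2 ∈ A' → Two A' t) := by
  have hs0 := expo_nonneg hlam
  have hsum : ∀ (B p : ℝ), expo lam < p →
      Summable fun t : {t // Admissible t ∧ ¬ Good B lam t} => (height t.1 ^ 2) ^ (-p) := by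
    intro B p hp
    have h1 := summable_bad (B := B) hlam hp
    exact h1.comp_injective (i := fun t : {t // Admissible t ∧ ¬ Good B lam t} =>
      (⟨t.1, not_good t.2⟩ : {x : GaussianInt × GaussianInt × GaussianInt // x ∈ All B lam}))
      (fun x y h => Subtype.ext (by simpa using congrArg Subtype.val h))
  have mono : ∀ {B B' : ℝ} {t : GaussianInt × GaussianInt × GaussianInt}, B ≤ B' → ¬ Good B lam t → ¬ Good B' lam t := by
    intro B B' t hB h h'
    refine h (fun S hS => lt_of_le_of_lt ?_ (h' S hS))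
    exact mul_le_mul_of_nonneg_right hB (Real.rpow_nonneg ((norm_nonneg _).trans (le_max_left _ _)) _)
  refine ⟨fun hA => ?_, fun hA => ?_, fun A' t h h1 h2 h3 => two_of_all h h1 h2 h3⟩
  · have hA' : Pool.Agent.R909.RS.PairSparse P nsq A γ D := fun x y hx hy hxy =>
      hA x y (pos_of_sq_pos hx) (pos_of_sq_pos hy) hxy
    have key : ∀ B η : ℝ, 0 ≤ η → expo lam + η < 2 * γ → _ := fun B η hη h =>
      Pool.Agent.K6.H40.Rand.two (T := GaussianInt × GaussianInt × GaussianInt) (H := fun t => height t ^ 2) mem hA'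
        (Q := fun t => Admissible t ∧ ¬ Good B lam t) (fun t ht => one_le_height ht.1) (K := 4) (by norm_num)
        (by linarith) (p := 2 * γ - η) (η := η) hη (by linarith) (hsum B _ (by linarith))
    have conv : ∀ ω t, Two (A ω) t → ∃ i j, mem i t ≠ mem j t ∧ height t ^ 2 ≤ 4 * nsq (mem i t) ∧
        height t ^ 2 ≤ 4 * nsq (mem j t) ∧ mem i t ∈ A ω ∧ mem j t ∈ A ω := by
      rintro ω t ⟨x, y, h1, h2, h3, h4, h5, h6, h7⟩
      obtain ⟨i, rfl⟩ := isMember_iff.1 h2
      obtain ⟨j, rfl⟩ := isMember_iff.1 h3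
      exact ⟨i, j, h1, sq_le h4, sq_le h5, h6, h7⟩
    refine ⟨fun h => ?_, fun B η hη h => ?_⟩
    · have h1 : ∀ᵐ ω ∂P, ∀ k : ℕ, {t | Admissible t ∧ Two (A ω) t ∧ ¬ Good (k : ℝ) lam t}.Finite := by
        rw [ae_all_iff]
        intro k
        filter_upwards [(key k 0 le_rfl (by linarith)).1] with ω hω
        refine hω.subset ?_
        rintro t ⟨h2, h3, h4⟩
        exact ⟨⟨h2, h4⟩, conv ω t h3⟩
      filter_upwards [h1] with ω hω B
      obtain ⟨k, hk⟩ := exists_nat_ge B
      refine (hω k).subset ?_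
      rintro t ⟨h2, h3, h4⟩
      exact ⟨h2, h3, mono hk h4⟩
    · obtain ⟨K, hK⟩ := (key B η hη h).2
      refine ⟨K, fun y hy => (measure_mono ?_).trans (hK y hy)⟩
      rintro ω ⟨t, h2, h3, h4, h5⟩
      exact ⟨t, ⟨h2, h5⟩, h3, conv ω t h4⟩
  · have hA' : Pool.Agent.R909.RS.Sparse P nsq A γ D := fun x hx => hA x (pos_of_sq_pos hx)
    have key : ∀ B η : ℝ, 0 ≤ η → expo lam + η < γ → _ := fun B η hη h =>
      Pool.Agent.K6.H40.Rand.one (T := GaussianInt × GaussianInt × GaussianInt) (H := fun t => height t ^ 2) mem hA'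
        (Q := fun t => Admissible t ∧ ¬ Good B lam t) (fun t ht => one_le_height ht.1) (K := 4) (by norm_num)
        (by linarith) (p := γ - η) (η := η) hη (by linarith) (hsum B _ (by linarith))
    have conv : ∀ ω t, One (A ω) t → ∃ i, height t ^ 2 ≤ 4 * nsq (mem i t) ∧ mem i t ∈ A ω := by
      rintro ω t ⟨x, h2, h4, h6⟩
      obtain ⟨i, rfl⟩ := isMember_iff.1 h2
      exact ⟨i, sq_le h4, h6⟩
    refine ⟨fun h => ?_, fun B η hη h => ?_⟩
    · have h1 : ∀ᵐ ω ∂P, ∀ k : ℕ, {t | Admissible t ∧ One (A ω) t ∧ ¬ Good (k : ℝ) lam t}.Finite := by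
        rw [ae_all_iff]
        intro k
        filter_upwards [(key k 0 le_rfl (by linarith)).1] with ω hω
        refine hω.subset ?_
        rintro t ⟨h2, h3, h4⟩
        exact ⟨⟨h2, h4⟩, conv ω t h3⟩
      filter_upwards [h1] with ω hω B
      obtain ⟨k, hk⟩ := exists_nat_ge B
      refine (hω k).subset ?_
      rintro t ⟨h2, h3, h4⟩
      exact ⟨h2, h3, mono hk h4⟩
    · obtain ⟨K, hK⟩ := (key B η hη h).2
      refine ⟨K, fun y hy => (measure_mono ?_).trans (hK y hy)⟩
      rintro ω ⟨t, h2, h3, h4, h5⟩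
      exact ⟨t, ⟨h2, h5⟩, h3, conv ω t h4⟩

end Pool.Agent.Results.MP_dc323a_nt.RandomSets
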