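import Pool.Agent.N671.DA.Win
import Pool.Agent.K6.H40.GaussMembers

/-!
# The abc conjecture over the Gaussian integers near functions of the denominators of good approximations

Let `α_1, …, α_m` be real numbers. We consider the natural numbers `q` with `‖q α_j - β_j‖ ≤ c q ^ (-τ)` for all `j`, `‖x‖`
the distance to the nearest integer; for `β = 0`, `c = 1`, `τ = 1 / m` these include the denominators of all best
simultaneous approximations (the denominators of the convergents for `m = 1`). They form a very sparse sequence, with gaps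
growing exponentially for almost all `α` if `τ = 1 / m`. We show: let `G` be a function with steps bounded below by a positive
constant and growth at most `v ^ d`, for example `a v ^ d`, and `0 ≤ κ ≤ 1`; let `λ > 0` and
`s = min (4 λ / 7) (6 / 11) + max (λ - 1) 0`. For all `α` in `ℝ^m` outside a set of Hausdorff dimension at most
`(m + d A s + κ) / (1 + τ)`, and all `c` and `B`, for all but finitely many such `q` ALL coprime triples `a + b = c` of nonzero
Gaussian integers one of whose members has a norm `n` within `q ^ κ` of `G q`, and with `H ^ 2 ≤ n ^ A`,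
`H = max (|a|, |b|, |c|)`, have `rad (abc) > B H ^ λ`. For `τ = 1 / m` the bound is less than `m` if `d A s + κ < 1`; and so
the statement holds for almost all `α`. For `λ = 1 - ε` this is the inequality of the question, for `A = 1` (which includes
`n = H ^ 2`) and `d < 11 / 6`.

Proof. The number of the norms of the members of the exceptional triples up to `X` is at most `X ^ (A s + ε)` by the starting
theorem `ExceptionalSetTwelveElevenths` of this problem. So the `q` such that there is one of them near `G q` form a set with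
`O (X ^ (d A s + κ + ε))` elements up to `X`; and the `α` with `‖q α_j - β_j‖ ≤ c q ^ (-τ)` for all `j` and infinitely many
`q` of such a set are covered by few small cubes (tool of helper671, `N671/DA`).
-/

set_option autoImplicit false

namespace Pool.Agent.Results.MP_dc323a_nt.SimultaneousApproximations

open Pool.Agent.N671.DA (Solves Expanding expanding_pow approx_good_nat)
open Pool.Agent.K6.H40.GaussMembers (Good count_nat expo_nonneg)
open Pool.Agent.Results.MP_dc323a_nt.WindowsWithoutExceptions (expo height IsPrimeSystem)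

/-- **Gaussian abc triples with norms near the denominators of good approximations.** Let `G` have steps `≥ a > 0` and growth
at most `v ^ d`, `A > 0`, `λ > 0`, `0 ≤ κ ≤ 1`, `β` in `ℝ^m` and `τ > 0`;
`expo λ = min (4 λ / 7) (6 / 11) + max (λ - 1) 0`. For all `α` in `ℝ^m` outside a set of Hausdorff dimension at most
`(m + d A expo λ + κ) / (1 + τ)` and all `B` and `c`, for all large `q` with `‖q α_j - β_j‖ ≤ c q ^ (-τ)` for all `j`
(`Solves α β q (c q ^ (-τ))`), EVERY `n ≥ 1` with `|n - G q| ≤ q ^ κ` is `Good A B λ`: every triple `a + b = c` of coprime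
nonzero Gaussian integers with a member of norm `n` and `H ^ 2 ≤ n ^ A`, `H = max (|a|, |b|, |c|)`, has
`rad (abc) > B H ^ λ`. In particular, for `τ = 1 / m` and `d A expo λ + κ < 1` this holds for all `α` outside a set of
dimension less than `m`. The functions `a v ^ d` with `a > 0`, `d ≥ 1` are examples of `G`. -/
theorem result :
    (∀ (G : ℕ → ℝ) (d : ℝ), Expanding G d → ∀ A lam κ : ℝ, 0 < A → 0 < lam → 0 ≤ κ → κ ≤ 1 →
      ∀ (m : ℕ) (β : Fin m → ℝ) (τ : ℝ), 0 < τ →
      ∃ E : Set (Fin m → ℝ), dimH E ≤ ENNReal.ofReal ((m + (d * (A * expo lam) + κ)) / (1 + τ)) ∧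
        ∀ α, α ∉ E → ∀ B c : ℝ, ∃ Q : ℕ, ∀ q : ℕ, Q ≤ q → Solves α β q (c * (q : ℝ) ^ (-τ)) →
          ∀ n : ℕ, 1 ≤ n → |(n : ℝ) - G q| ≤ (q : ℝ) ^ κ → Good A B lam n) ∧
    (∀ (m : ℕ) (s : ℝ), 1 ≤ m → s < 1 → ((m : ℝ) + s) / (1 + 1 / (m : ℝ)) < m) ∧
    ∀ α d : ℝ, 0 < α → 1 ≤ d → Expanding (fun v => α * (v : ℝ) ^ d) d := by
  refine ⟨fun G d hG A lam κ hA hlam hκ hκ1 m β τ hτ => ?_, fun m s hm hs => ?_, fun α d hα hd => expanding_pow hα hd⟩
  · have hall : ∀ k : ℕ, ∃ E : Set (Fin m → ℝ), dimH E ≤ ENNReal.ofReal ((m + (d * (A * expo lam) + κ)) / (1 + τ)) ∧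
        ∀ α, α ∉ E → ∀ c : ℝ, ∃ Q : ℕ, ∀ q : ℕ, Q ≤ q → Solves α β q (c * (q : ℝ) ^ (-τ)) →
          ∀ n : ℕ, 1 ≤ n → True → |(n : ℝ) - G q| ≤ (q : ℝ) ^ κ → Good A (k : ℝ) lam n := fun k =>
      approx_good_nat (fun _ => True) (Good A (k : ℝ) lam) hG (s := A * expo lam) (κ := κ)
        (mul_nonneg hA.le (expo_nonneg hlam)) hκ hκ1 (fun ε hε => count_nat hA hlam ε hε) β hτ
    choose E hE1 hE2 using hall
    refine ⟨⋃ k, E k, ?_, fun α hα B c => ?_⟩
    · rw [dimH_iUnion]
      exact iSup_le hE1
    · obtain ⟨k, hk⟩ := exists_nat_ge B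
      obtain ⟨Q, hQ⟩ := hE2 k α (fun h => hα (Set.mem_iUnion.2 ⟨k, h⟩)) c
      refine ⟨Q, fun q hq h1 n hn h2 => ?_⟩
      intro a b c' ha hb hc habc hcop hmem hht S hS
      refine lt_of_le_of_lt ?_ (hQ q hq h1 n hn trivial h2 a b c' ha hb hc habc hcop hmem hht S hS)
      have hpos : 0 ≤ height (a, b, c') := (norm_nonneg _).trans (le_max_left _ _)
      exact mul_le_mul_of_nonneg_right hk (Real.rpow_nonneg hpos _)
  · have hm0 : (0 : ℝ) < m := by exact_mod_cast (by omega : 0 < m)
    rw [div_lt_iff₀ (by positivity)]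
    field_simp
    nlinarith

end Pool.Agent.Results.MP_dc323a_nt.SimultaneousApproximations
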