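import Pool.Agent.N760.IT.C
import Pool.Agent.K6.H40.GaussMembers

/-!
# The abc conjecture over the Gaussian integers near the members of almost all orbits of Euler's function

Let `φ_k` be the `k`-th iterate of Euler's function, `φ_0(m) = m`. Let `f` be a positive multiplicative function of at most
polynomial growth such that `f p ≤ M p` for the large primes `p`, with different values at different large primes; for
example the identity, Euler's function or the sum of the divisors. Let `G` have steps bounded below by a positive constant
and growth at most `v ^ d`, for example `α v ^ d` with `α > 0`, `d ≥ 1`. Let `λ > 0` and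
`s = min (4 λ / 7) (6 / 11) + max (λ - 1) 0`. If `d A s + κ < 1`, then for each `B` there is a function `K(m)` tending to
infinity such that for almost all `m`, for all `k ≤ K(m)`, with `v = f(φ_k(m))`, ALL coprime triples `a + b = c` of nonzero
Gaussian integers one of whose members has a norm `n` within `v ^ κ` of `G v`, and with `H ^ 2 ≤ n ^ A`,
`H = max (|a|, |b|, |c|)`, have `rad (abc) > B H ^ λ`. For `λ = 1 - ε` this is the inequality of the question, for `A = 1`
(which includes `n = H ^ 2`) and `d < 11 / 6`.

The iterates of Euler's function are not multiplicative, their values form a very thin set and are taken with very large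
multiplicities, and so this does not follow from the size of the exceptional set alone.

Proof. The number of the norms of the members of the exceptional triples up to `X` is at most `X ^ (A s + ε)` by the starting
theorem `ExceptionalSetTwelveElevenths` of this problem. Let `P` be the largest prime factor of `m`; for most `m` it is
greater than a power of `m` close to `1 / J`, `J → ∞` slowly; `P - 1` divides `φ(m)`, and so on: one finds that `f(φ_k(m))`
is, outside a set of density `0`, determined by few data, and falls into a set with a power saving rarely (tool of helper760,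
`N760/IT`).
-/

set_option autoImplicit false

namespace Pool.Agent.Results.MP_dc323a_nt.TotientOrbits

open Filter
open Pool.Agent.N733.TG (LM Expanding lm_totient lm_sigma expanding_pow)
open Pool.Agent.N760.IT (orb lm_id orbit_good_nat)
open Pool.Agent.N826.IT.Orb (AlmostAll almostAll_mono)
open Pool.Agent.K6.H40.GaussMembers (Good count_nat expo_nonneg)
open Pool.Agent.Results.MP_dc323a_nt.WindowsWithoutExceptions (expo)

/-- **Gaussian abc triples with norms near the orbits of Euler's function.** `orb f k m` is `f(φ_k(m))`, `φ_k` the `k`-th
iterate of Euler's function, `φ_0(m) = m`. Let `f` be multiplicative and positive, of at most polynomial growth, with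
`f p ≤ M p` at the large primes, and injective there. Let `G` have steps `≥ a > 0` and growth at most `v ^ d`. Let `A > 0`,
`λ > 0`, `κ ≥ 0` and `d A expo λ + κ < 1`, `expo λ = min (4 λ / 7) (6 / 11) + max (λ - 1) 0`. For each `B` there is `K(m)`
tending to infinity such that for almost all `m` (all `m ≤ N` but `o(N)`), for all `k ≤ K(m)`, EVERY `n ≥ 1` with
`|n - G (f (φ_k m))| ≤ f(φ_k(m)) ^ κ` is `Good A B λ`: every triple `a + b = c` of coprime nonzero Gaussian integers with a
member of norm `n` and `H ^ 2 ≤ n ^ A`, `H = max (|a|, |b|, |c|)`, has `rad (abc) > B H ^ λ`. The identity, Euler's function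
and the sum of the divisors are examples of such functions `f`, and `α v ^ d` with `α > 0`, `d ≥ 1` is an example of `G`. -/
theorem result :
    (∀ f : ℕ → ℕ, LM f → ∀ (G : ℕ → ℝ) (d : ℝ), Expanding G d → ∀ A lam κ : ℝ, 0 < A → 0 < lam → 0 ≤ κ →
      d * (A * expo lam) + κ < 1 → ∀ B : ℝ, ∃ K : ℕ → ℕ, Tendsto K atTop atTop ∧
        AlmostAll (fun m => ∀ k ≤ K m, ∀ n : ℕ, 1 ≤ n → |(n : ℝ) - G (orb f k m)| ≤ (orb f k m : ℝ) ^ κ →
          Good A B lam n)) ∧
    (LM (fun m => m) ∧ LM Nat.totient ∧ LM (fun m => ∑ d ∈ m.divisors, d)) ∧
    ∀ α d : ℝ, 0 < α → 1 ≤ d → Expanding (fun v => α * (v : ℝ) ^ d) d := by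
  refine ⟨fun f hf G d hG A lam κ hA hlam hκ h1 B => ?_, ⟨lm_id, lm_totient, lm_sigma⟩,
    fun α d hα hd => expanding_pow hα hd⟩
  obtain ⟨K, hK, hK2⟩ := orbit_good_nat (fun _ => True) (Good A B lam) hf hG (s := A * expo lam) (κ := κ)
    (mul_nonneg hA.le (expo_nonneg hlam)) hκ h1 (fun ε hε => count_nat hA hlam ε hε)
  exact ⟨K, hK, almostAll_mono hK2 (fun m hm k hk n hn h2 => hm k hk n hn trivial h2)⟩

end Pool.Agent.Results.MP_dc323a_nt.TotientOrbits
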